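import Mathlib

/-!
Explicit alternating integer 4-form on `ℤ^n` whose associated quadratic form on `Λ²` becomes a
positive definite sum of squares of integer linear forms after adding `2n-3` squares of
integer linear forms.
-/

namespace Pool.Agent.H20.PDM

open Finset

/-- double sequences -/
abbrev V := ℕ → ℕ → ℤ

/-- coordinates of `x ∧ y` -/
def wedge (x y : ℕ → ℤ) : V := fun p q => x p * y q - x q * y p

/-- sums of squares of integer linear forms (as bilinear forms) -/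
def SOS (F : V → V → ℤ) : Prop :=
  ∃ (ι : Type) (_ : Fintype ι) (L : V →ₗ[ℤ] (ι → ℤ)), ∀ a b, F a b = ∑ i, L a i * L b i

lemma SOS.zero : SOS (fun _ _ => 0) :=
  ⟨Empty, inferInstance, 0, fun a b => by simp⟩

lemma SOS.add {F G : V → V → ℤ} (hF : SOS F) (hG : SOS G) : SOS (fun a b => F a b + G a b) := by
  obtain ⟨ι, _, L, hL⟩ := hF
  obtain ⟨κ, _, K, hK⟩ := hG
  refine ⟨ι ⊕ κ, inferInstance,
    { toFun := fun a => Sum.elim (L a) (K a)
      map_add' := ?_
      map_smul' := ?_ }, fun a b => ?_⟩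
  · intro a b
    ext (i | i) <;> simp
  · intro c a
    ext (i | i)
    · simp only [Sum.elim_inl, Pi.smul_apply, map_smul, RingHom.id_apply]
    · simp only [Sum.elim_inr, Pi.smul_apply, map_smul, RingHom.id_apply]
  · simp [hL, hK]

lemma SOS.sq (l : V →ₗ[ℤ] ℤ) : SOS (fun a b => l a * l b) :=
  ⟨Unit, inferInstance, LinearMap.pi fun _ => l, fun a b => by simp⟩

lemma SOS.nsmul {F : V → V → ℤ} (hF : SOS F) (c : ℕ) : SOS (fun a b => (c : ℤ) * F a b) := by
  obtain ⟨ι, _, L, hL⟩ := hF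
  refine ⟨ι × Fin c, inferInstance,
    { toFun := fun a i => L a i.1
      map_add' := ?_
      map_smul' := ?_ }, fun a b => ?_⟩
  · intro a b
    ext i
    simp
  · intro r a
    ext i
    simp only [Pi.smul_apply, map_smul, RingHom.id_apply]
  · simp [hL, Fintype.sum_prod_type, Finset.mul_sum]

lemma SOS.smul {F : V → V → ℤ} (hF : SOS F) {c : ℤ} (hc : 0 ≤ c) :
    SOS (fun a b => c * F a b) := by
  obtain ⟨d, rfl⟩ := Int.eq_ofNat_of_zero_le hc
  exact hF.nsmul d

lemma SOS.sum {σ : Type*} (s : Finset σ) (F : σ → V → V → ℤ) (h : ∀ i ∈ s, SOS (F i)) :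
    SOS (fun a b => ∑ i ∈ s, F i a b) := by
  classical
  induction s using Finset.induction_on with
  | empty => simpa using SOS.zero
  | insert i s hi ih =>
    simp only [Finset.sum_insert hi]
    exact (h i (Finset.mem_insert_self _ _)).add
      (ih fun j hj => h j (Finset.mem_insert_of_mem hj))

/-- coordinate functional -/
def coord (p : ℕ × ℕ) : V →ₗ[ℤ] ℤ :=
  (LinearMap.proj p.2 : (ℕ → ℤ) →ₗ[ℤ] ℤ) ∘ₗ (LinearMap.proj p.1 : V →ₗ[ℤ] (ℕ → ℤ))

@[simp] lemma coord_apply (p : ℕ × ℕ) (a : V) : coord p a = a p.1 p.2 := rfl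

variable (n : ℕ)

/-- the base of the weights is `mm n ^ 2` -/
def mm : ℕ := 2 * n ^ 2
/-- offset of the exponents -/
def kk : ℕ := 4 * n ^ 2

/-- weights -/
def cc (s : ℕ) : ℤ := ((mm n : ℤ) ^ 2) ^ (kk n + s ^ 2)

/-- pairs `i < j` -/
def PP : Finset (ℕ × ℕ) := (range n ×ˢ range n).filter fun p => p.1 < p.2

/-- nested pairs of pairs with equal sums: `t = ((i, j), (k, l))`, `i < k < l < j`,
`i + j = k + l` -/
def QQ : Finset ((ℕ × ℕ) × (ℕ × ℕ)) :=
  (PP n ×ˢ PP n).filter fun t => t.1.1 + t.1.2 = t.2.1 + t.2.2 ∧ t.1.1 < t.2.1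

variable {n}

lemma mem_PP {p : ℕ × ℕ} : p ∈ PP n ↔ p.1 < p.2 ∧ p.2 < n := by
  simp only [PP, mem_filter, mem_product, mem_range]
  omega

lemma mem_QQ {t : (ℕ × ℕ) × (ℕ × ℕ)} :
    t ∈ QQ n ↔ t.1.1 < t.2.1 ∧ t.2.1 < t.2.2 ∧ t.2.2 < t.1.2 ∧ t.1.2 < n ∧
      t.1.1 + t.1.2 = t.2.1 + t.2.2 := by
  simp only [QQ, mem_filter, mem_product, mem_PP]
  omega

/-- the alternating expression attached to `t` -/
def RR (t : (ℕ × ℕ) × (ℕ × ℕ)) (a b : V) : ℤ :=
  a t.1.1 t.1.2 * b t.2.1 t.2.2 + b t.1.1 t.1.2 * a t.2.1 t.2.2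
    + a t.1.1 t.2.1 * b t.2.2 t.1.2 + b t.1.1 t.2.1 * a t.2.2 t.1.2
    - a t.1.1 t.2.2 * b t.2.1 t.1.2 - b t.1.1 t.2.2 * a t.2.1 t.1.2

/-- product of the lengths of the two nested pairs -/
def ww (t : (ℕ × ℕ) × (ℕ × ℕ)) : ℤ :=
  ((t.1.2 : ℤ) - t.1.1) * ((t.2.2 : ℤ) - t.2.1)

variable (n)

/-- the bilinear form of the 4-form -/
def BB (a b : V) : ℤ := ∑ t ∈ QQ n, -(cc n (t.1.1 + t.1.2) * ww t) * RR t a b

/-- Wronskian functionals -/
def WW (s : ℕ) : V →ₗ[ℤ] ℤ :=
  ∑ p ∈ (PP n).filter (fun p => p.1 + p.2 = s), ((p.2 : ℤ) - p.1) • coord p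

variable {n}

lemma WW_apply (s : ℕ) (a : V) : WW n s a =
    ∑ p ∈ (PP n).filter (fun p => p.1 + p.2 = s), ((p.2 : ℤ) - p.1) * a p.1 p.2 := by
  simp [WW, LinearMap.sum_apply]

lemma RR_wedge (t : (ℕ × ℕ) × (ℕ × ℕ)) (x y z w : ℕ → ℤ) :
    RR t (wedge x y) (wedge z w) = - RR t (wedge x z) (wedge y w) := by
  simp only [RR, wedge]
  ring

lemma BB_wedge (x y z w : ℕ → ℤ) :
    BB n (wedge x y) (wedge z w) = - BB n (wedge x z) (wedge y w) := by
  simp only [BB, ← Finset.sum_neg_distrib]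
  refine Finset.sum_congr rfl fun t _ => ?_
  rw [RR_wedge]
  ring

lemma sum_WW (a b : V) :
    ∑ s ∈ range (2 * n), cc n s * (WW n s a * WW n s b) =
      ∑ p ∈ PP n, cc n (p.1 + p.2) * ((p.2 : ℤ) - p.1) ^ 2 * (a p.1 p.2 * b p.1 p.2) +
      ∑ t ∈ QQ n, (cc n (t.1.1 + t.1.2) * ww t) *
        (a t.1.1 t.1.2 * b t.2.1 t.2.2 + b t.1.1 t.1.2 * a t.2.1 t.2.2) := by
  -- expand into a double sum over pairs of pairs with equal sum
  set f : (ℕ × ℕ) × (ℕ × ℕ) → ℤ := fun t =>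
    cc n (t.1.1 + t.1.2) * (((t.1.2 : ℤ) - t.1.1) * ((t.2.2 : ℤ) - t.2.1)) *
      (a t.1.1 t.1.2 * b t.2.1 t.2.2) with hf
  have h1 : ∑ s ∈ range (2 * n), cc n s * (WW n s a * WW n s b) =
      ∑ t ∈ (PP n ×ˢ PP n).filter (fun t => t.1.1 + t.1.2 = t.2.1 + t.2.2), f t := by
    have hm : ∀ t ∈ (PP n ×ˢ PP n).filter (fun t => t.1.1 + t.1.2 = t.2.1 + t.2.2),
        t.1.1 + t.1.2 ∈ range (2 * n) := by
      intro t ht
      simp only [mem_filter, mem_product, mem_PP] at ht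
      simp only [mem_range]
      omega
    rw [← Finset.sum_fiberwise_of_maps_to hm]
    refine Finset.sum_congr rfl fun s _ => ?_
    rw [WW_apply, WW_apply, Finset.sum_mul_sum, ← Finset.sum_product', Finset.mul_sum]
    refine Finset.sum_congr ?_ ?_
    · ext t
      simp only [mem_filter, mem_product]
      constructor
      · rintro ⟨⟨h1, h2⟩, h3, h4⟩
        exact ⟨⟨⟨h1, h3⟩, by omega⟩, h2⟩
      · rintro ⟨⟨⟨h1, h3⟩, h5⟩, h2⟩
        exact ⟨⟨h1, h2⟩, h3, by omega⟩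
    · intro t ht
      simp only [mem_filter, mem_product] at ht
      obtain ⟨_, hs⟩ := ht
      simp only [hf, hs]
      ring
  have h2 : ∑ t ∈ (PP n ×ˢ PP n).filter (fun t => t.1.1 + t.1.2 = t.2.1 + t.2.2), f t =
      ∑ t ∈ QQ n, f t + (∑ t ∈ (PP n ×ˢ PP n).filter (fun t => t.1 = t.2), f t +
        ∑ t ∈ QQ n, f t.swap) := by
    have hd : (PP n ×ˢ PP n).filter (fun t => t.1.1 + t.1.2 = t.2.1 + t.2.2) =
        QQ n ∪ ((PP n ×ˢ PP n).filter (fun t => t.1 = t.2) ∪ (QQ n).map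
          (Equiv.prodComm _ _).toEmbedding) := by
      ext t
      simp only [mem_union, mem_filter, mem_product, mem_PP, mem_QQ, mem_map, Prod.ext_iff]
      constructor
      · rintro ⟨⟨⟨h1, h2⟩, h3, h4⟩, h5⟩
        rcases lt_trichotomy t.1.1 t.2.1 with h | h | h
        · left
          omega
        · right; left
          omega
        · right; right
          refine ⟨t.swap, ?_, ?_⟩
          · simp only [Prod.fst_swap, Prod.snd_swap]
            omega
          · simp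
      · rintro (h | h | ⟨u, hu, h⟩)
        · omega
        · omega
        · simp only [Equiv.coe_toEmbedding, Equiv.prodComm_apply, Prod.fst_swap,
            Prod.snd_swap] at h
          omega
    rw [hd, Finset.sum_union, Finset.sum_union, Finset.sum_map]
    · rfl
    · rw [Finset.disjoint_left]
      intro t ht ht'
      simp only [mem_filter, mem_product, mem_PP, Prod.ext_iff] at ht
      simp only [mem_map, mem_QQ, Equiv.coe_toEmbedding, Equiv.prodComm_apply] at ht'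
      obtain ⟨u, hu, h⟩ := ht'
      subst h
      simp only [Prod.fst_swap, Prod.snd_swap] at ht
      omega
    · rw [Finset.disjoint_left]
      intro t ht ht'
      simp only [mem_QQ] at ht
      simp only [mem_union, mem_filter, mem_product, mem_PP, mem_QQ, mem_map, Prod.ext_iff,
        Equiv.coe_toEmbedding, Equiv.prodComm_apply] at ht'
      rcases ht' with h | ⟨u, hu, h⟩
      · omega
      · simp only [Prod.fst_swap, Prod.snd_swap] at h
        omega
  have h3 : ∑ t ∈ (PP n ×ˢ PP n).filter (fun t => t.1 = t.2), f t = ∑ p ∈ PP n, f (p, p) := by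
    refine Finset.sum_nbij' (fun t => t.1) (fun p => (p, p)) ?_ ?_ ?_ ?_ ?_
    · intro t ht
      simp only [mem_filter, mem_product] at ht
      exact ht.1.1
    · intro p hp
      simp [hp]
    · intro t ht
      simp only [mem_filter, mem_product] at ht
      exact Prod.ext rfl ht.2
    · intro p hp
      rfl
    · intro t ht
      simp only [mem_filter, mem_product] at ht
      obtain ⟨t1, t2⟩ := t
      simp only at ht
      rw [ht.2]
  rw [h1, h2, h3]
  have h4 : ∑ p ∈ PP n, f (p, p) =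
      ∑ p ∈ PP n, cc n (p.1 + p.2) * ((p.2 : ℤ) - p.1) ^ 2 * (a p.1 p.2 * b p.1 p.2) := by
    refine Finset.sum_congr rfl fun p _ => ?_
    simp only [hf]
    ring
  rw [h4, add_left_comm, ← Finset.sum_add_distrib]
  congr 1
  refine Finset.sum_congr rfl fun t ht => ?_
  rw [mem_QQ] at ht
  simp only [hf, ww, Prod.fst_swap, Prod.snd_swap]
  rw [← ht.2.2.2.2]
  ring

end Pool.Agent.H20.PDM
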