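import Mathlib

/-!
Cohomology models of closed oriented 4-manifolds with fundamental group `ℤ^n`, and the
cohomological version of the Kotschick invariant `p(ℤ^n)`.
-/

namespace Pool.Agent.H20.PDM

open Matrix

/-- The integer `u · v` given by an integer matrix. -/
def pair {ι : Type} [Fintype ι] (A : Matrix ι ι ℤ) (u v : ι → ℤ) : ℤ :=
  ∑ a, ∑ b, u a * A a b * v b

/-- The `(i, j)` coordinate of `e_k ∧ e_l`. -/
def coeff {n : ℕ} (i j k l : Fin n) : ℤ :=
  (if i = k ∧ j = l then 1 else 0) - (if j = k ∧ i = l then 1 else 0)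

/-- The vectors `c i j = e_i ∪ e_j` are alternating in `i, j` and the products
`(e_i ∪ e_j) · (e_k ∪ e_l)` change sign when `j` and `k` are exchanged. -/
def IsCup {n : ℕ} {ι : Type} [Fintype ι] (A : Matrix ι ι ℤ) (c : Fin n → Fin n → ι → ℤ) : Prop :=
  (∀ i, c i i = 0) ∧ (∀ i j, c i j = -c j i) ∧
    ∀ i j k l, pair A (c i j) (c k l) = -pair A (c i k) (c j l)

/-- The map `Λ² ℤ^n → ℤ^ι` sending `e_k ∧ e_l` to `c k l` is split injective: integer linear
forms recover the coordinates. -/
def IsSplit {n : ℕ} {ι : Type} [Fintype ι] (c : Fin n → Fin n → ι → ℤ) : Prop :=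
  ∃ r : Fin n → Fin n → ι → ℤ, ∀ i j k l, ∑ a, r i j a * c k l a = coeff i j k l

/-- The integral cohomology ring data of a closed oriented 4-manifold `M` with fundamental group
`ℤ^n` and `H²(M) = ℤ^ι` (`H¹(M) = ℤ^n` with basis `e_i`): the intersection form on `H²` is
symmetric and unimodular, the cup products `cup i j = e_i ∪ e_j` in `H²` are alternating, the
fourfold products are alternating (graded commutativity and associativity), and
`Λ² H¹ → H²` is split injective. -/
structure CohomologyModel (n : ℕ) (ι : Type) [Fintype ι] [DecidableEq ι] where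
  /-- the intersection form on `H² = ℤ^ι` -/
  form : Matrix ι ι ℤ
  /-- the cup products `e_i ∪ e_j` -/
  cup : Fin n → Fin n → ι → ℤ
  form_symm : ∀ a b, form a b = form b a
  form_unimodular : IsUnit form.det
  isCup : IsCup form cup
  isSplit : IsSplit cup

namespace CohomologyModel

variable {n : ℕ} {ι : Type} [Fintype ι] [DecidableEq ι] (M : CohomologyModel n ι)

/-- The real quadratic form of the intersection form. -/
def realForm : QuadraticForm ℝ (ι → ℝ) :=
  (M.form.map (Int.cast : ℤ → ℝ)).toQuadraticForm'

/-- The Euler characteristic `2 - 2 b₁ + b₂` (`b₁ = b₃ = n`, `b₂ = card ι`). -/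
def euler (_ : CohomologyModel n ι) : ℤ := 2 - 2 * (n : ℤ) + Fintype.card ι

/-- The signature of the intersection form. -/
noncomputable def signature : ℤ := (sigPos M.realForm : ℤ) - sigNeg M.realForm

end CohomologyModel

/-- The set of the numbers `χ - σ` of the cohomology models with `H¹ = ℤ^n`. -/
def values (n : ℕ) : Set ℤ :=
  {d | ∃ (ι : Type) (_ : Fintype ι) (_ : DecidableEq ι) (M : CohomologyModel n ι),
    M.euler - M.signature = d}

/-- The cohomological version of `p(ℤ^n)`: the least value of `χ - σ` over the cohomology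
models. -/
noncomputable def pCoh (n : ℕ) : ℤ := sInf (values n)

end Pool.Agent.H20.PDM
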