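import Pool.Agent.H20.PDM.Defs

/-!
`χ - σ = 2 - 2 n + 2 b⁻` for cohomology models.
-/

namespace Pool.Agent.H20.PDM

open Matrix Module

namespace CohomologyModel

variable {n : ℕ} {ι : Type} [Fintype ι] [DecidableEq ι] (M : CohomologyModel n ι)

/-- the real matrix of the form -/
def rmat : Matrix ι ι ℝ := M.form.map (Int.cast : ℤ → ℝ)

lemma rmat_det : M.rmat.det ≠ 0 := by
  have h1 : M.rmat.det = ((M.form.det : ℤ) : ℝ) := by
    rw [rmat]
    exact (Int.cast_det M.form).symm
  rw [h1]
  have h2 := M.form_unimodular.ne_zero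
  exact_mod_cast h2

lemma rmat_symm (i j : ι) : M.rmat i j = M.rmat j i := by
  simp only [rmat, Matrix.map_apply]
  rw [M.form_symm i j]

lemma realForm_apply (v : ι → ℝ) : M.realForm v = v ⬝ᵥ (M.rmat *ᵥ v) := by
  rw [realForm, Matrix.toQuadraticForm', LinearMap.BilinMap.toQuadraticMap_apply,
    Matrix.toLinearMap₂'_apply']
  rfl

/-- the real bilinear form -/
noncomputable def bil (v w : ι → ℝ) : ℝ := v ⬝ᵥ (M.rmat *ᵥ w)

lemma bil_comm (v w : ι → ℝ) : M.bil v w = M.bil w v := by
  simp only [bil, dotProduct, mulVec, Finset.mul_sum]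
  rw [Finset.sum_comm]
  refine Finset.sum_congr rfl fun i _ => Finset.sum_congr rfl fun j _ => ?_
  rw [M.rmat_symm i j]
  ring

lemma separatingLeft : (QuadraticMap.associated (R := ℝ) M.realForm).SeparatingLeft := by
  have h1 : QuadraticMap.associated (R := ℝ) M.realForm = Matrix.toLinearMap₂' ℝ M.rmat := by
    rw [realForm, Matrix.toQuadraticForm']
    refine QuadraticMap.associated_left_inverse ℝ (fun x y => ?_)
    rw [Matrix.toLinearMap₂'_apply', Matrix.toLinearMap₂'_apply']
    exact M.bil_comm x y
  rw [h1, Matrix.separatingLeft_toLinearMap₂'_iff]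
  exact (Matrix.nondegenerate_iff_det_ne_zero.mpr M.rmat_det).separatingLeft

lemma sig_add : sigPos M.realForm + sigNeg M.realForm = Fintype.card ι := by
  have h := QuadraticForm.sigPos_add_sigNeg_add_radical (Q := M.realForm)
  have h0 : finrank ℝ M.realForm.radical = 0 := by
    rw [QuadraticMap.radical_eq_ker_associated,
      LinearMap.separatingLeft_iff_ker_eq_bot.mp M.separatingLeft]
    simp
  rw [h0, add_zero, Module.finrank_fintype_fun_eq_card] at h
  exact h

lemma euler_sub_signature :
    M.euler - M.signature = 2 - 2 * (n : ℤ) + 2 * sigNeg M.realForm := by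
  have h := M.sig_add
  rw [euler, signature]
  have : (Fintype.card ι : ℤ) = sigPos M.realForm + sigNeg M.realForm := by
    exact_mod_cast h.symm
  rw [this]
  ring

end CohomologyModel

end Pool.Agent.H20.PDM
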