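import Pool.Agent.H20.PDM.Index
import Pool.Agent.H20.Hopf.Main

/-!
Lower bound for `b⁻` of a cohomology model.
-/

namespace Pool.Agent.H20.PDM

open Matrix Module

lemma odd_choose (K : ℕ) : ∀ i : ℕ, i < 2 ^ K → Odd ((2 ^ K - 1).choose i) := by
  intro i
  induction i with
  | zero => intro _; simp
  | succ i ih =>
    intro hi
    have h1 := ih (by omega)
    have h2 : 2 ∣ (2 ^ K).choose (i + 1) :=
      Nat.prime_two.dvd_choose_pow (by omega) (by omega)
    have h3 : (2 ^ K).choose (i + 1) = (2 ^ K - 1).choose i + (2 ^ K - 1).choose (i + 1) := by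
      have : 2 ^ K = (2 ^ K - 1) + 1 := by
        have := Nat.one_le_two_pow (n := K)
        omega
      conv_lhs => rw [this]
      rw [Nat.choose_succ_succ]
    rw [h3] at h2
    rw [Nat.odd_iff] at h1 ⊢
    omega

namespace CohomologyModel

variable {n : ℕ} {ι : Type} [Fintype ι] [DecidableEq ι] (M : CohomologyModel n ι)

/-- real vectors of the cup products of basis elements -/
noncomputable def g (i j : Fin n) : ι → ℝ :=
  fun a => ((M.cup i j a : ℤ) : ℝ)

/-- real cup product -/
noncomputable def cupR (x y : Fin n → ℝ) : ι → ℝ := ∑ i, ∑ j, (x i * y j) • M.g i j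

lemma g_swap (i j : Fin n) : M.g i j = - M.g j i := by
  ext a
  simp only [g, Pi.neg_apply]
  rw [M.isCup.2.1 i j]
  simp

lemma bil_g (i j k l : Fin n) : M.bil (M.g i j) (M.g k l) = - M.bil (M.g i k) (M.g j l) := by
  have h := M.isCup.2.2 i j k l
  have key : ∀ i j k l : Fin n, M.bil (M.g i j) (M.g k l) =
      ((pair M.form (M.cup i j) (M.cup k l) : ℤ) : ℝ) := by
    intro i j k l
    simp only [bil, dotProduct, mulVec, rmat, g, Matrix.map_apply, pair, Finset.mul_sum]
    push_cast
    refine Finset.sum_congr rfl fun a _ => Finset.sum_congr rfl fun b _ => ?_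
    ring
  rw [key, key, h]
  push_cast
  ring

lemma cupR_self (x : Fin n → ℝ) : M.cupR x x = 0 := by
  have h1 : M.cupR x x = - M.cupR x x := by
    conv_lhs => rw [cupR, Finset.sum_comm]
    rw [cupR, ← Finset.sum_neg_distrib]
    refine Finset.sum_congr rfl fun i _ => ?_
    rw [← Finset.sum_neg_distrib]
    refine Finset.sum_congr rfl fun j _ => ?_
    rw [M.g_swap j i, smul_neg, mul_comm]
  have h2 : (2 : ℝ) • M.cupR x x = 0 := by
    rw [two_smul]
    nth_rw 2 [h1]
    exact add_neg_cancel _
  exact (smul_eq_zero.mp h2).resolve_left two_ne_zero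

lemma bil_cupR_left (x y : Fin n → ℝ) (u : ι → ℝ) : M.bil (M.cupR x y) u =
    ∑ i, ∑ j, (x i * y j) * M.bil (M.g i j) u := by
  have hB : ∀ v w, M.bil v w = Matrix.toLinearMap₂' ℝ M.rmat v w := by
    intro v w
    rw [Matrix.toLinearMap₂'_apply']
    rfl
  simp only [hB, cupR, map_sum, LinearMap.sum_apply, map_smul, LinearMap.smul_apply, smul_eq_mul]

lemma bil_cupR (x y z w : Fin n → ℝ) : M.bil (M.cupR x y) (M.cupR z w) =
    ∑ i, ∑ j, ∑ k, ∑ l, (x i * y j) * (z k * w l) * M.bil (M.g i j) (M.g k l) := by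
  rw [bil_cupR_left]
  refine Finset.sum_congr rfl fun i _ => Finset.sum_congr rfl fun j _ => ?_
  rw [bil_comm, bil_cupR_left, Finset.mul_sum]
  refine Finset.sum_congr rfl fun k _ => ?_
  rw [Finset.mul_sum]
  refine Finset.sum_congr rfl fun l _ => ?_
  rw [bil_comm]
  ring

lemma bil_cupR_self (x y : Fin n → ℝ) : M.bil (M.cupR x y) (M.cupR x y) = 0 := by
  have h1 : M.bil (M.cupR x y) (M.cupR x y) = - M.bil (M.cupR x x) (M.cupR y y) := by
    rw [bil_cupR, bil_cupR, ← Finset.sum_neg_distrib]
    refine Finset.sum_congr rfl fun i _ => ?_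
    rw [Finset.sum_comm, ← Finset.sum_neg_distrib]
    refine Finset.sum_congr rfl fun k _ => ?_
    rw [← Finset.sum_neg_distrib]
    refine Finset.sum_congr rfl fun j _ => ?_
    rw [← Finset.sum_neg_distrib]
    refine Finset.sum_congr rfl fun l _ => ?_
    rw [M.bil_g i j k l]
    ring
  rw [h1, M.cupR_self]
  simp [bil]

lemma cupR_inj {x y : Fin n → ℝ} (h : M.cupR x y = 0) (i j : Fin n) :
    x i * y j - x j * y i = 0 := by
  obtain ⟨r, hr⟩ := M.isSplit
  have h2 : ∀ k l : Fin n, ∑ a, M.g k l a * (r i j a : ℝ) =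
      ((Pi.single k 1 : Fin n → ℝ) i) * (Pi.single l 1 : Fin n → ℝ) j -
      ((Pi.single k 1 : Fin n → ℝ) j) * (Pi.single l 1 : Fin n → ℝ) i := by
    intro k l
    have h4 := congrArg (fun t : ℤ => (t : ℝ)) (hr i j k l)
    push_cast at h4
    have h5 : ∑ a, M.g k l a * (r i j a : ℝ) = ((coeff i j k l : ℤ) : ℝ) := by
      rw [← h4]
      exact Finset.sum_congr rfl fun a _ => by rw [g, mul_comm]
    rw [h5, coeff]
    simp only [Pi.single_apply, ← ite_and, mul_ite, mul_one, mul_zero]
    push_cast
    congr 1 <;> simp only [and_comm]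
  have h5 : ∑ a, M.cupR x y a * (r i j a : ℝ) = 0 := by
    rw [h]
    simp
  have h6 : ∑ a, M.cupR x y a * (r i j a : ℝ) =
      ∑ k, ∑ l, (x k * y l) * ∑ a, M.g k l a * (r i j a : ℝ) := by
    simp only [cupR, Finset.sum_apply, Pi.smul_apply, smul_eq_mul, Finset.sum_mul, Finset.mul_sum]
    rw [Finset.sum_comm]
    refine Finset.sum_congr rfl fun k _ => ?_
    rw [Finset.sum_comm]
    refine Finset.sum_congr rfl fun l _ => Finset.sum_congr rfl fun a _ => ?_
    ring
  rw [h6] at h5
  simp only [h2] at h5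
  have h7 : ∑ k, ∑ l, (x k * y l) * (((Pi.single k 1 : Fin n → ℝ) i) *
      (Pi.single l 1 : Fin n → ℝ) j -
      ((Pi.single k 1 : Fin n → ℝ) j) * (Pi.single l 1 : Fin n → ℝ) i) =
      x i * y j - x j * y i := by
    simp only [mul_sub, Finset.sum_sub_distrib]
    congr 1
    · simp [Pi.single_apply]
    · simp [Pi.single_apply]
  rw [h7] at h5
  exact h5

/-- extension by zero -/
def ex {n r : ℕ} (x : Fin r → ℝ) : Fin n → ℝ := fun a => if h : (a : ℕ) < r then x ⟨a, h⟩ else 0

lemma ex_ne {r : ℕ} (hr : r ≤ n) {x : Fin r → ℝ} (hx : x ≠ 0) : (ex x : Fin n → ℝ) ≠ 0 := by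
  intro h
  apply hx
  ext a
  have := congrFun h ⟨a, lt_of_lt_of_le a.2 hr⟩
  simpa [ex] using this

lemma ex_neg {r : ℕ} (x : Fin r → ℝ) : (ex (-x) : Fin n → ℝ) = - ex x := by
  ext a
  simp only [ex, Pi.neg_apply]
  split_ifs <;> simp

lemma continuous_ex {r : ℕ} : Continuous (fun x : Fin r → ℝ => (ex x : Fin n → ℝ)) := by
  refine continuous_pi fun a => ?_
  simp only [ex]
  split_ifs with h
  · exact continuous_apply _
  · exact continuous_const

lemma cupR_neg_left (x y : Fin n → ℝ) : M.cupR (-x) y = - M.cupR x y := by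
  simp only [cupR, Pi.neg_apply, neg_mul, neg_smul, Finset.sum_neg_distrib]

lemma cupR_neg_right (x y : Fin n → ℝ) : M.cupR x (-y) = - M.cupR x y := by
  simp only [cupR, Pi.neg_apply, mul_neg, neg_smul, Finset.sum_neg_distrib]

lemma continuous_cupR {X : Type*} [TopologicalSpace X] {f h : X → Fin n → ℝ} (hf : Continuous f)
    (hh : Continuous h) : Continuous fun v => M.cupR (f v) (h v) := by
  unfold cupR
  refine continuous_finsetSum _ fun i _ => continuous_finsetSum _ fun j _ => ?_
  exact (((continuous_apply i).comp hf).mul ((continuous_apply j).comp hh)).smul continuous_const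

theorem two_pow_le (hn : 2 ≤ n) : 2 ^ (Nat.clog 2 n) ≤ sigNeg M.realForm + 1 := by
  classical
  by_contra hcon
  push Not at hcon
  obtain ⟨k, hk⟩ : ∃ k, Nat.clog 2 n = k + 1 := by
    have : 0 < Nat.clog 2 n := Nat.clog_pos (by norm_num) hn
    exact ⟨Nat.clog 2 n - 1, by omega⟩
  have hkn : 2 ^ k < n := by
    have := Nat.pow_pred_clog_lt_self (b := 2) (by norm_num) (x := n) hn
    rw [hk] at this
    simpa using this
  rw [hk] at hcon
  have hp : 1 ≤ 2 ^ k := Nat.one_le_two_pow
  have hp2 : 2 ^ (k + 1) = 2 * 2 ^ k := by ring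
  obtain ⟨w, hw, ⟨e⟩⟩ :=
    QuadraticForm.equivalent_one_neg_one_weighted_sum_squared M.realForm M.separatingLeft
  have hm : sigNeg M.realForm = Set.ncard {i | w i < 0} :=
    QuadraticForm.sigNeg_of_equiv_weightedSumSquares ⟨e⟩
  set m := sigNeg M.realForm with hmdef
  have hcard : Fintype.card {i // w i < 0} = m := by
    rw [hm, Set.ncard_eq_toFinset_card', Set.toFinset_card]
    rfl
  let σ : {i // w i < 0} ≃ Fin m := Fintype.equivFinOfCardEq hcard
  set r := 2 ^ k + 1 with hr
  set s := 2 ^ k with hs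
  set N := 2 ^ (k + 1) - 1 with hN
  have hodd : Odd (N.choose (r - 1)) := odd_choose (k + 1) (r - 1) (by omega)
  -- the map
  let cv : Pool.Agent.H20.Hopf.EE r s → (ι → ℝ) := fun v => M.cupR (ex v.1) (ex v.2)
  let F : Pool.Agent.H20.Hopf.EE r s → (Fin N → ℝ) := fun v t =>
    if (t : ℕ) = 0 then ∑ a, (ex v.1 : Fin n → ℝ) a * (ex v.2 : Fin n → ℝ) a
    else if h : (t : ℕ) - 1 < m then (e (cv v)) (σ.symm ⟨(t : ℕ) - 1, h⟩).1 else 0
  have hcvc : Continuous cv :=
    M.continuous_cupR (continuous_ex.comp continuous_fst) (continuous_ex.comp continuous_snd)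
  have hec : Continuous fun v : ι → ℝ => e v := by
    have : Continuous (e.toLinearEquiv.toLinearMap) :=
      LinearMap.continuous_of_finiteDimensional _
    exact this
  have hFc : Continuous F := by
    refine continuous_pi fun t => ?_
    simp only [F]
    split_ifs with h1 h2
    · refine continuous_finsetSum _ fun a _ => ?_
      exact ((continuous_apply a).comp (continuous_ex.comp continuous_fst)).mul
        ((continuous_apply a).comp (continuous_ex.comp continuous_snd))
    · exact (continuous_apply _).comp (hec.comp hcvc)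
    · exact continuous_const
  have eneg : ∀ v : ι → ℝ, e (-v) = - e v := fun v => map_neg e.toLinearEquiv v
  have h1 : ∀ v, F (Pool.Agent.H20.Hopf.T1 r s v) = - F v := by
    intro v
    ext t
    simp only [F, cv, Pool.Agent.H20.Hopf.T1_apply, ex_neg, cupR_neg_left, eneg, Pi.neg_apply]
    split_ifs with h1 h2
    · rw [← Finset.sum_neg_distrib]
      exact Finset.sum_congr rfl fun a _ => by ring
    · rfl
    · simp
  have h2 : ∀ v, F (Pool.Agent.H20.Hopf.T2 r s v) = - F v := by
    intro v
    ext t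
    simp only [F, cv, Pool.Agent.H20.Hopf.T2_apply, ex_neg, cupR_neg_right, eneg, Pi.neg_apply]
    split_ifs with h1 h2
    · rw [← Finset.sum_neg_distrib]
      exact Finset.sum_congr rfl fun a _ => by ring
    · rfl
    · simp
  obtain ⟨v, hv1, hv2, hv⟩ := Pool.Agent.H20.Hopf.hopf (r := r) (s := s) (N := N) (by omega)
    (by omega) (by omega) hodd F hFc h1 h2
  -- the negative part of the cup product vanishes
  set x : Fin n → ℝ := ex v.1 with hx
  set y : Fin n → ℝ := ex v.2 with hy
  have hx0 : x ≠ 0 := ex_ne (by omega) hv1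
  have hy0 : y ≠ 0 := ex_ne (by omega) hv2
  have hxy : ∑ a, x a * y a = 0 := by
    have := congrFun hv ⟨0, by omega⟩
    simpa [F] using this
  have hneg : ∀ i, w i < 0 → e (M.cupR x y) i = 0 := by
    intro i hi
    have hlt := (σ ⟨i, hi⟩).2
    have := congrFun hv ⟨(σ ⟨i, hi⟩ : ℕ) + 1, by omega⟩
    simp only [F, cv, Nat.add_eq_zero_iff, one_ne_zero, and_false, if_false,
      Nat.add_sub_cancel, Fin.is_lt, dite_true, Fin.eta, Equiv.symm_apply_apply,
      Pi.zero_apply] at this
    exact this
  have hQ : QuadraticMap.weightedSumSquares ℝ w (e (M.cupR x y)) = 0 := by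
    rw [e.map_app, M.realForm_apply]
    exact M.bil_cupR_self x y
  rw [QuadraticMap.weightedSumSquares_apply] at hQ
  have hterm : ∀ i, w i • (e (M.cupR x y) i * e (M.cupR x y) i) =
      e (M.cupR x y) i * e (M.cupR x y) i := by
    intro i
    rcases hw i with h | h
    · rw [hneg i (by rw [h]; norm_num)]
      simp
    · rw [h, one_smul]
  simp only [hterm] at hQ
  have hez : e (M.cupR x y) = 0 := by
    ext i
    have := (Finset.sum_eq_zero_iff_of_nonneg (fun i _ => mul_self_nonneg _)).mp hQ i
      (Finset.mem_univ i)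
    simpa using this
  have hc : M.cupR x y = 0 := by
    have : e (M.cupR x y) = e 0 := by
      rw [hez]
      exact (map_zero e.toLinearEquiv).symm
    exact e.injective this
  apply hx0
  ext i
  have hyy : 0 < ∑ j, y j * y j := by
    rcases (Finset.sum_nonneg (s := Finset.univ) (f := fun j => y j * y j)
      (fun j _ => mul_self_nonneg _)).eq_or_lt with h | h
    · exfalso
      apply hy0
      ext j
      have := (Finset.sum_eq_zero_iff_of_nonneg (fun i _ => mul_self_nonneg _)).mp h.symm j
        (Finset.mem_univ j)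
      simpa using this
    · exact h
  have h3 : ∑ j, (x i * y j - x j * y i) * y j = x i * ∑ j, y j * y j := by
    have : ∑ j, (x i * y j - x j * y i) * y j =
        x i * ∑ j, y j * y j - y i * ∑ j, x j * y j := by
      rw [Finset.mul_sum, Finset.mul_sum, ← Finset.sum_sub_distrib]
      exact Finset.sum_congr rfl fun j _ => by ring
    rw [this, hxy]
    ring
  have h4 : ∑ j, (x i * y j - x j * y i) * y j = 0 := by
    refine Finset.sum_eq_zero fun j _ => ?_
    rw [M.cupR_inj hc i j, zero_mul]
  rw [h4] at h3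
  have := (mul_eq_zero.mp h3.symm).resolve_right hyy.ne'
  simpa using this

/-- the lower bound for `χ - σ` -/
theorem lower_bound : 2 * ((2 : ℤ) ^ (Nat.clog 2 n) - n) ≤ M.euler - M.signature := by
  rw [M.euler_sub_signature]
  rcases lt_or_ge n 2 with h | h
  · have h0 : Nat.clog 2 n = 0 := Nat.clog_of_right_le_one (by omega) 2
    rw [h0]
    have : (0 : ℤ) ≤ sigNeg M.realForm := by positivity
    simp only [pow_zero]
    linarith
  · have h1 := M.two_pow_le h
    have h2 : (2 : ℤ) ^ (Nat.clog 2 n) ≤ sigNeg M.realForm + 1 := by exact_mod_cast h1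
    linarith

end CohomologyModel

end Pool.Agent.H20.PDM
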