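import Pool.Agent.H20.PDM.Core

/-!
The form `BB + ∑ cc s * WW s ^ 2` is a sum of squares of integer linear forms, and it dominates
the sum of the squares of all coordinates.
-/

namespace Pool.Agent.H20.PDM

open Finset

variable {n : ℕ}

/-- base of the weights -/
def MM (n : ℕ) : ℤ := (mm n : ℤ) ^ 2

lemma cc_eq (s : ℕ) : cc n s = MM n ^ (kk n + s ^ 2) := rfl

lemma MM_eq : MM n = 4 * (n : ℤ) ^ 4 := by
  simp only [MM, mm]
  push_cast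
  ring

lemma MM_pos (hn : 2 ≤ n) : 0 < MM n := by
  rw [MM_eq]
  positivity

lemma one_le_MM (hn : 2 ≤ n) : 1 ≤ MM n := MM_pos hn

lemma ww_pos {t : (ℕ × ℕ) × (ℕ × ℕ)} (ht : t ∈ QQ n) : 0 < ww t := by
  rw [mem_QQ] at ht
  have h1 : (t.1.1 : ℤ) < t.1.2 := by exact_mod_cast (by omega : t.1.1 < t.1.2)
  have h2 : (t.2.1 : ℤ) < t.2.2 := by exact_mod_cast (by omega : t.2.1 < t.2.2)
  unfold ww
  exact mul_pos (by linarith) (by linarith)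

lemma ww_le {t : (ℕ × ℕ) × (ℕ × ℕ)} (ht : t ∈ QQ n) : ww t ≤ (n : ℤ) ^ 2 := by
  rw [mem_QQ] at ht
  have h1 : (t.1.2 : ℤ) < n := by exact_mod_cast (by omega : t.1.2 < n)
  have h2 : (t.2.2 : ℤ) < n := by exact_mod_cast (by omega : t.2.2 < n)
  have h3 : (t.1.1 : ℤ) < t.1.2 := by exact_mod_cast (by omega : t.1.1 < t.1.2)
  have h4 : (t.2.1 : ℤ) < t.2.2 := by exact_mod_cast (by omega : t.2.1 < t.2.2)
  have h5 : (0 : ℤ) ≤ t.1.1 := by positivity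
  have h6 : (0 : ℤ) ≤ t.2.1 := by positivity
  unfold ww
  rw [sq]
  exact mul_le_mul (by linarith) (by linarith) (by linarith) (by linarith)

/-- weight of the terms -/
def AA (t : (ℕ × ℕ) × (ℕ × ℕ)) (n u d : ℕ) : ℤ := ww t * MM n ^ (kk n + u ^ 2 - d ^ 2)

lemma AA_pos (hn : 2 ≤ n) {t : (ℕ × ℕ) × (ℕ × ℕ)} (ht : t ∈ QQ n) (u d : ℕ) :
    0 < AA t n u d := mul_pos (ww_pos ht) (pow_pos (MM_pos hn) _)

lemma AA_le (hn : 2 ≤ n) {t : (ℕ × ℕ) × (ℕ × ℕ)} (ht : t ∈ QQ n) (u d : ℕ) (hd : 1 ≤ d) :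
    AA t n u d ≤ (n : ℤ) ^ 2 * MM n ^ (kk n + u ^ 2 - 1) := by
  unfold AA
  have h1 : MM n ^ (kk n + u ^ 2 - d ^ 2) ≤ MM n ^ (kk n + u ^ 2 - 1) := by
    apply pow_le_pow_right₀ (one_le_MM hn)
    have : 1 ≤ d ^ 2 := Nat.one_le_pow _ _ hd
    omega
  exact mul_le_mul (ww_le ht) h1 (pow_nonneg (MM_pos hn).le _) (by positivity)

lemma sq_le_kk {d : ℕ} (hd : d ≤ 2 * n) : d ^ 2 ≤ kk n := by
  unfold kk
  nlinarith

/-- first exponent identity -/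
lemma AA_mul {t : (ℕ × ℕ) × (ℕ × ℕ)} (u d : ℕ) (hd : d ≤ 2 * n) :
    AA t n u d * MM n ^ (2 * (u + d) * d) = cc n (u + d) * ww t := by
  unfold AA
  rw [cc_eq, mul_assoc, ← pow_add, mul_comm]
  congr 2
  have := sq_le_kk hd
  have h2 : (u + d) ^ 2 = u ^ 2 + 2 * u * d + d ^ 2 := by ring
  have h3 : 2 * (u + d) * d = 2 * u * d + 2 * d ^ 2 := by ring
  rw [h2, h3]
  omega

/-- second exponent identity -/
lemma AA_mul_sq {t : (ℕ × ℕ) × (ℕ × ℕ)} (u d : ℕ) (hd : d ≤ 2 * n) :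
    AA t n u d * (MM n ^ (2 * (u + d) * d)) ^ 2 = AA t n (u + 2 * d) d := by
  unfold AA
  rw [mul_assoc, ← pow_mul, ← pow_add]
  congr 2
  have := sq_le_kk hd
  have h2 : (u + 2 * d) ^ 2 = u ^ 2 + 4 * u * d + 4 * d ^ 2 := by ring
  have h3 : 2 * (u + d) * d * 2 = 4 * u * d + 4 * d ^ 2 := by ring
  rw [h2, h3]
  omega

/-- first linear form -/
def L1 (n : ℕ) (t : (ℕ × ℕ) × (ℕ × ℕ)) : V →ₗ[ℤ] ℤ :=
  coord (t.1.1, t.2.1) -
    (MM n ^ (2 * ((t.1.1 + t.2.1) + (t.1.2 - t.2.1)) * (t.1.2 - t.2.1))) •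
      coord (t.2.2, t.1.2)

/-- second linear form -/
def L2 (n : ℕ) (t : (ℕ × ℕ) × (ℕ × ℕ)) : V →ₗ[ℤ] ℤ :=
  coord (t.1.1, t.2.2) +
    (MM n ^ (2 * ((t.1.1 + t.2.2) + (t.1.2 - t.2.2)) * (t.1.2 - t.2.2))) •
      coord (t.2.1, t.1.2)

/-- the cost terms -/
def C1 (n : ℕ) (t : (ℕ × ℕ) × (ℕ × ℕ)) : ℤ := AA t n (t.1.1 + t.2.1) (t.1.2 - t.2.1)
def C2 (n : ℕ) (t : (ℕ × ℕ) × (ℕ × ℕ)) : ℤ := AA t n (t.2.2 + t.1.2) (t.1.2 - t.2.1)
def C3 (n : ℕ) (t : (ℕ × ℕ) × (ℕ × ℕ)) : ℤ := AA t n (t.1.1 + t.2.2) (t.1.2 - t.2.2)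
def C4 (n : ℕ) (t : (ℕ × ℕ) × (ℕ × ℕ)) : ℤ := AA t n (t.2.1 + t.1.2) (t.1.2 - t.2.2)

lemma term_identity {t : (ℕ × ℕ) × (ℕ × ℕ)} (ht : t ∈ QQ n) (a b : V) :
    (cc n (t.1.1 + t.1.2) * ww t) *
        (a t.1.1 t.1.2 * b t.2.1 t.2.2 + b t.1.1 t.1.2 * a t.2.1 t.2.2)
      + -(cc n (t.1.1 + t.1.2) * ww t) * RR t a b =
    (C1 n t * (L1 n t a * L1 n t b) + C3 n t * (L2 n t a * L2 n t b))
      - (C1 n t * (a t.1.1 t.2.1 * b t.1.1 t.2.1) + C2 n t * (a t.2.2 t.1.2 * b t.2.2 t.1.2)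
        + C3 n t * (a t.1.1 t.2.2 * b t.1.1 t.2.2)
        + C4 n t * (a t.2.1 t.1.2 * b t.2.1 t.1.2)) := by
  rw [mem_QQ] at ht
  obtain ⟨h1, h2, h3, h4, h5⟩ := ht
  have e1 := AA_mul (n := n) (t := t) (t.1.1 + t.2.1) (t.1.2 - t.2.1) (by omega)
  have e2 := AA_mul_sq (n := n) (t := t) (t.1.1 + t.2.1) (t.1.2 - t.2.1) (by omega)
  have e3 := AA_mul (n := n) (t := t) (t.1.1 + t.2.2) (t.1.2 - t.2.2) (by omega)
  have e4 := AA_mul_sq (n := n) (t := t) (t.1.1 + t.2.2) (t.1.2 - t.2.2) (by omega)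
  have g1 : t.1.1 + t.2.1 + (t.1.2 - t.2.1) = t.1.1 + t.1.2 := by omega
  have g2 : t.1.1 + t.2.1 + 2 * (t.1.2 - t.2.1) = t.2.2 + t.1.2 := by omega
  have g3 : t.1.1 + t.2.2 + (t.1.2 - t.2.2) = t.1.1 + t.1.2 := by omega
  have g4 : t.1.1 + t.2.2 + 2 * (t.1.2 - t.2.2) = t.2.1 + t.1.2 := by omega
  rw [g1] at e1 e2
  rw [g2] at e2
  rw [g3] at e3 e4
  rw [g4] at e4
  simp only [C1, C2, C3, C4, L1, L2, LinearMap.sub_apply, LinearMap.add_apply,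
    LinearMap.smul_apply, coord_apply, smul_eq_mul, g1, g3, RR]
  generalize MM n ^ (2 * (t.1.1 + t.1.2) * (t.1.2 - t.2.1)) = T1 at *
  generalize MM n ^ (2 * (t.1.1 + t.1.2) * (t.1.2 - t.2.2)) = T2 at *
  generalize AA t n (t.1.1 + t.2.1) (t.1.2 - t.2.1) = A1 at *
  generalize AA t n (t.1.1 + t.2.2) (t.1.2 - t.2.2) = A3 at *
  rw [← e2, ← e4]
  have e5 : A3 * T2 = A1 * T1 := by rw [e1, e3]
  rw [← e1]
  linear_combination (-(a t.1.1 t.2.2 * b t.2.1 t.1.2) - b t.1.1 t.2.2 * a t.2.1 t.1.2) * e5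

/-- generic fibre bound -/
lemma fiber_bound (hn : 2 ≤ n) (φ : (ℕ × ℕ) × (ℕ × ℕ) → ℕ × ℕ)
    (ψ : (ℕ × ℕ) × (ℕ × ℕ) → ℕ) (g : (ℕ × ℕ) × (ℕ × ℕ) → ℤ)
    (hψ : ∀ t ∈ QQ n, ψ t < n)
    (hinj : ∀ t ∈ QQ n, ∀ t' ∈ QQ n, φ t = φ t' → ψ t = ψ t' → t = t')
    (hg : ∀ t ∈ QQ n,
      g t ≤ (n : ℤ) ^ 2 * MM n ^ (kk n + ((φ t).1 + (φ t).2) ^ 2 - 1)) (p : ℕ × ℕ) :
    ∑ t ∈ (QQ n).filter (fun t => φ t = p), g t ≤
      (n : ℤ) ^ 3 * MM n ^ (kk n + (p.1 + p.2) ^ 2 - 1) := by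
  have h1 : ∑ t ∈ (QQ n).filter (fun t => φ t = p), g t ≤
      #((QQ n).filter (fun t => φ t = p)) •
        ((n : ℤ) ^ 2 * MM n ^ (kk n + (p.1 + p.2) ^ 2 - 1)) := by
    apply Finset.sum_le_card_nsmul
    intro t ht
    rw [mem_filter] at ht
    have := hg t ht.1
    rwa [ht.2] at this
  have h2 : #((QQ n).filter (fun t => φ t = p)) ≤ n := by
    have := Finset.card_le_card_of_injOn (s := (QQ n).filter (fun t => φ t = p))
      (t := range n) ψ (by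
        intro t ht
        simp only [coe_filter, Set.mem_setOf_eq] at ht
        simpa using hψ t ht.1)
      (by
        intro t ht t' ht' h
        simp only [coe_filter, Set.mem_setOf_eq] at ht ht'
        exact hinj t ht.1 t' ht'.1 (ht.2.trans ht'.2.symm) h)
    simpa using this
  refine h1.trans ?_
  rw [nsmul_eq_mul]
  have h3 : (#((QQ n).filter (fun t => φ t = p)) : ℤ) ≤ n := by exact_mod_cast h2
  have h4 : 0 ≤ (n : ℤ) ^ 2 * MM n ^ (kk n + (p.1 + p.2) ^ 2 - 1) :=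
    mul_nonneg (by positivity) (pow_nonneg (MM_pos hn).le _)
  calc (#((QQ n).filter (fun t => φ t = p)) : ℤ) *
        ((n : ℤ) ^ 2 * MM n ^ (kk n + (p.1 + p.2) ^ 2 - 1))
      ≤ (n : ℤ) * ((n : ℤ) ^ 2 * MM n ^ (kk n + (p.1 + p.2) ^ 2 - 1)) :=
        mul_le_mul_of_nonneg_right h3 h4
    _ = _ := by ring

/-- total cost at a pair -/
def cost (n : ℕ) (p : ℕ × ℕ) : ℤ :=
  ∑ t ∈ (QQ n).filter (fun t => (t.1.1, t.2.1) = p), C1 n t +
  ∑ t ∈ (QQ n).filter (fun t => (t.2.2, t.1.2) = p), C2 n t +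
  ∑ t ∈ (QQ n).filter (fun t => (t.1.1, t.2.2) = p), C3 n t +
  ∑ t ∈ (QQ n).filter (fun t => (t.2.1, t.1.2) = p), C4 n t

lemma cost_le (hn : 2 ≤ n) (p : ℕ × ℕ) :
    cost n p ≤ 4 * (n : ℤ) ^ 3 * MM n ^ (kk n + (p.1 + p.2) ^ 2 - 1) := by
  have b1 := fiber_bound hn (fun t => (t.1.1, t.2.1)) (fun t => t.2.2) (C1 n)
    (fun t ht => by rw [mem_QQ] at ht; omega)
    (fun t ht t' ht' h h' => by
      rw [mem_QQ] at ht ht'
      simp only [Prod.ext_iff] at h ⊢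
      omega)
    (fun t ht => AA_le hn ht _ _ (by rw [mem_QQ] at ht; omega)) p
  have b2 := fiber_bound hn (fun t => (t.2.2, t.1.2)) (fun t => t.1.1) (C2 n)
    (fun t ht => by rw [mem_QQ] at ht; omega)
    (fun t ht t' ht' h h' => by
      rw [mem_QQ] at ht ht'
      simp only [Prod.ext_iff] at h ⊢
      omega)
    (fun t ht => AA_le hn ht _ _ (by rw [mem_QQ] at ht; omega)) p
  have b3 := fiber_bound hn (fun t => (t.1.1, t.2.2)) (fun t => t.2.1) (C3 n)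
    (fun t ht => by rw [mem_QQ] at ht; omega)
    (fun t ht t' ht' h h' => by
      rw [mem_QQ] at ht ht'
      simp only [Prod.ext_iff] at h ⊢
      omega)
    (fun t ht => AA_le hn ht _ _ (by rw [mem_QQ] at ht; omega)) p
  have b4 := fiber_bound hn (fun t => (t.2.1, t.1.2)) (fun t => t.1.1) (C4 n)
    (fun t ht => by rw [mem_QQ] at ht; omega)
    (fun t ht t' ht' h h' => by
      rw [mem_QQ] at ht ht'
      simp only [Prod.ext_iff] at h ⊢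
      omega)
    (fun t ht => AA_le hn ht _ _ (by rw [mem_QQ] at ht; omega)) p
  unfold cost
  linarith

lemma cost_lt (hn : 2 ≤ n) {p : ℕ × ℕ} (hp : p ∈ PP n) :
    cost n p + 1 ≤ cc n (p.1 + p.2) * ((p.2 : ℤ) - p.1) ^ 2 := by
  have h1 := cost_le hn p
  rw [mem_PP] at hp
  have hk : 1 ≤ kk n := by unfold kk; nlinarith
  have h2 : cc n (p.1 + p.2) = MM n * MM n ^ (kk n + (p.1 + p.2) ^ 2 - 1) := by
    rw [cc_eq, ← pow_succ']
    congr 1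
    omega
  have h3 : (1 : ℤ) ≤ MM n ^ (kk n + (p.1 + p.2) ^ 2 - 1) := one_le_pow₀ (one_le_MM hn)
  have h4 : (1 : ℤ) ≤ ((p.2 : ℤ) - p.1) ^ 2 := by
    have : (1 : ℤ) ≤ (p.2 : ℤ) - p.1 := by
      have : (p.1 : ℤ) < p.2 := by exact_mod_cast hp.1
      linarith
    nlinarith
  have h5 : 0 ≤ cc n (p.1 + p.2) := by
    rw [h2]
    exact mul_nonneg (MM_pos hn).le (by linarith)
  have h6 : cc n (p.1 + p.2) ≤ cc n (p.1 + p.2) * ((p.2 : ℤ) - p.1) ^ 2 := by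
    nlinarith
  refine le_trans ?_ h6
  rw [h2, MM_eq]
  rw [MM_eq] at h1 h3
  generalize (4 * (n : ℤ) ^ 4) ^ (kk n + (p.1 + p.2) ^ 2 - 1) = X at *
  have h7 : (2 : ℤ) ≤ n := by exact_mod_cast hn
  have h8 : (1 : ℤ) ≤ (n : ℤ) ^ 3 := one_le_pow₀ (by linarith)
  have h9 : 4 * (n : ℤ) ^ 4 * X = 4 * (n : ℤ) ^ 3 * X + 4 * (n : ℤ) ^ 3 * (n - 1) * X := by ring
  have h10 : (1 : ℤ) ≤ 4 * (n : ℤ) ^ 3 * (n - 1) * X := by
    have : (1 : ℤ) ≤ (n : ℤ) ^ 3 * (n - 1) := by nlinarith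
    nlinarith
  rw [h9]
  linarith

/-- the main identity -/
lemma main_identity (a b : V) :
    ∑ s ∈ range (2 * n), cc n s * (WW n s a * WW n s b) + BB n a b =
      ∑ t ∈ QQ n, (C1 n t * (L1 n t a * L1 n t b) + C3 n t * (L2 n t a * L2 n t b)) +
      ∑ p ∈ PP n, (cc n (p.1 + p.2) * ((p.2 : ℤ) - p.1) ^ 2 - cost n p) *
        (coord p a * coord p b) := by
  rw [sum_WW, BB, add_assoc, ← Finset.sum_add_distrib]
  rw [Finset.sum_congr rfl (fun t ht => term_identity (n := n) ht a b)]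
  rw [Finset.sum_sub_distrib]
  simp only [Finset.sum_add_distrib, sub_mul, Finset.sum_sub_distrib, coord_apply]
  have key : ∀ (φ : (ℕ × ℕ) × (ℕ × ℕ) → ℕ × ℕ) (g : (ℕ × ℕ) × (ℕ × ℕ) → ℤ),
      (∀ t ∈ QQ n, φ t ∈ PP n) →
      ∑ t ∈ QQ n, g t * (a (φ t).1 (φ t).2 * b (φ t).1 (φ t).2) =
      ∑ p ∈ PP n, (∑ t ∈ (QQ n).filter (fun t => φ t = p), g t) * (a p.1 p.2 * b p.1 p.2) := by
    intro φ g h
    rw [← Finset.sum_fiberwise_of_maps_to h]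
    refine Finset.sum_congr rfl fun p _ => ?_
    rw [Finset.sum_mul]
    refine Finset.sum_congr rfl fun t ht => ?_
    rw [mem_filter] at ht
    rw [ht.2]
  have k1 := key (fun t => (t.1.1, t.2.1)) (C1 n) (fun t ht => by
    rw [mem_QQ] at ht; rw [mem_PP]; simp only; omega)
  have k2 := key (fun t => (t.2.2, t.1.2)) (C2 n) (fun t ht => by
    rw [mem_QQ] at ht; rw [mem_PP]; simp only; omega)
  have k3 := key (fun t => (t.1.1, t.2.2)) (C3 n) (fun t ht => by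
    rw [mem_QQ] at ht; rw [mem_PP]; simp only; omega)
  have k4 := key (fun t => (t.2.1, t.1.2)) (C4 n) (fun t ht => by
    rw [mem_QQ] at ht; rw [mem_PP]; simp only; omega)
  simp only at k1 k2 k3 k4
  rw [k1, k2, k3, k4]
  simp only [cost, add_mul, Finset.sum_add_distrib]
  ring

theorem sos_main (hn : 2 ≤ n) :
    SOS (fun a b => ∑ s ∈ range (2 * n), cc n s * (WW n s a * WW n s b) + BB n a b) := by
  simp only [main_identity]
  refine SOS.add ?_ ?_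
  · refine SOS.sum _ (fun t a b =>
      C1 n t * (L1 n t a * L1 n t b) + C3 n t * (L2 n t a * L2 n t b)) fun t ht => ?_
    exact SOS.add ((SOS.sq _).smul (AA_pos hn ht _ _).le) ((SOS.sq _).smul (AA_pos hn ht _ _).le)
  · refine SOS.sum _ (fun p a b => (cc n (p.1 + p.2) * ((p.2 : ℤ) - p.1) ^ 2 - cost n p) *
        (coord p a * coord p b)) fun p hp => ?_
    exact (SOS.sq _).smul (by linarith [cost_lt hn hp])

theorem pos_main (hn : 2 ≤ n) (a : V) :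
    ∑ p ∈ PP n, (a p.1 p.2) ^ 2 ≤
      ∑ s ∈ range (2 * n), cc n s * (WW n s a * WW n s a) + BB n a a := by
  rw [main_identity]
  have h1 : 0 ≤ ∑ t ∈ QQ n,
      (C1 n t * (L1 n t a * L1 n t a) + C3 n t * (L2 n t a * L2 n t a)) := by
    refine Finset.sum_nonneg fun t ht => ?_
    exact add_nonneg (mul_nonneg (AA_pos hn ht _ _).le (mul_self_nonneg _))
      (mul_nonneg (AA_pos hn ht _ _).le (mul_self_nonneg _))
  have h2 : ∑ p ∈ PP n, (a p.1 p.2) ^ 2 ≤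
      ∑ p ∈ PP n, (cc n (p.1 + p.2) * ((p.2 : ℤ) - p.1) ^ 2 - cost n p) *
        (coord p a * coord p a) := by
    refine Finset.sum_le_sum fun p hp => ?_
    simp only [coord_apply]
    nlinarith [cost_lt hn hp, mul_self_nonneg (a p.1 p.2)]
  linarith

end Pool.Agent.H20.PDM
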