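import Pool.Agent.H20.PDM.Index
import Pool.Agent.H20.PDM.Pos

/-!
The explicit cohomology model with `χ - σ = 2 n - 4`.
-/

namespace Pool.Agent.H20.PDM

open Finset

variable {n : ℕ}

theorem sos_split (hn : 2 ≤ n) :
    SOS (fun a b => ∑ s ∈ range (2 * n), cc n s * (WW n s a * WW n s b) + BB n a b -
      ∑ p ∈ PP n, a p.1 p.2 * b p.1 p.2) := by
  have h : (fun a b : V => ∑ s ∈ range (2 * n), cc n s * (WW n s a * WW n s b) + BB n a b -
      ∑ p ∈ PP n, a p.1 p.2 * b p.1 p.2) = fun a b =>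
      ∑ t ∈ QQ n, (C1 n t * (L1 n t a * L1 n t b) + C3 n t * (L2 n t a * L2 n t b)) +
      ∑ p ∈ PP n, (cc n (p.1 + p.2) * ((p.2 : ℤ) - p.1) ^ 2 - cost n p - 1) *
        (coord p a * coord p b) := by
    funext a b
    rw [main_identity, add_sub_assoc, ← Finset.sum_sub_distrib]
    congr 1
    refine Finset.sum_congr rfl fun p _ => ?_
    simp only [coord_apply]
    ring
  rw [h]
  refine SOS.add ?_ ?_
  · refine SOS.sum _ (fun t a b =>
      C1 n t * (L1 n t a * L1 n t b) + C3 n t * (L2 n t a * L2 n t b)) fun t ht => ?_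
    exact SOS.add ((SOS.sq _).smul (AA_pos hn ht _ _).le) ((SOS.sq _).smul (AA_pos hn ht _ _).le)
  · refine SOS.sum _ (fun p a b => (cc n (p.1 + p.2) * ((p.2 : ℤ) - p.1) ^ 2 - cost n p - 1) *
        (coord p a * coord p b)) fun p hp => ?_
    exact (SOS.sq _).smul (by linarith [cost_lt hn hp])

/-- basis vector -/
def un (i : ℕ) : ℕ → ℤ := fun a => if a = i then 1 else 0

/-- the coordinates of `e_i ∧ e_j` -/
def wd (i j : Fin n) : V := wedge (un i) (un j)

lemma WW_zero_of_le (s : ℕ) (hs : s = 0 ∨ 2 * n - 2 ≤ s) (a : V) : WW n s a = 0 := by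
  rw [WW_apply]
  have : (PP n).filter (fun p => p.1 + p.2 = s) = ∅ := by
    rw [Finset.filter_eq_empty_iff]
    intro p hp
    rw [mem_PP] at hp
    omega
  rw [this, Finset.sum_empty]

/-- the linear map to the cohomology group in degree two -/
noncomputable def hmap {κ : Type} (L : V →ₗ[ℤ] (κ → ℤ)) :
    V →ₗ[ℤ] ({p // p ∈ PP n} ⊕ (κ ⊕ Fin (2 * n - 3)) → ℤ) where
  toFun a := Sum.elim (fun p => a p.1.1 p.1.2) (Sum.elim (L a)
    (fun t => (mm n : ℤ) ^ (kk n + ((t : ℕ) + 1) ^ 2) * WW n ((t : ℕ) + 1) a))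
  map_add' a b := by
    funext t
    rcases t with p | t | t
    · rfl
    · simp only [Sum.elim_inr, Sum.elim_inl, Pi.add_apply, map_add]
    · simp only [Sum.elim_inr, Pi.add_apply, map_add]
      ring
  map_smul' c a := by
    funext t
    rcases t with p | t | t
    · rfl
    · simp only [Sum.elim_inr, Sum.elim_inl, Pi.smul_apply, map_smul, RingHom.id_apply]
    · simp only [Sum.elim_inr, Pi.smul_apply, map_smul, RingHom.id_apply, smul_eq_mul]
      ring

/-- signs -/
def sgn {κ : Type} : {p // p ∈ PP n} ⊕ (κ ⊕ Fin (2 * n - 3)) → ℤ :=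
  Sum.elim (fun _ => 1) (Sum.elim (fun _ => 1) (fun _ => -1))

lemma cc_sq (s : ℕ) : cc n s = (mm n : ℤ) ^ (kk n + s ^ 2) * (mm n : ℤ) ^ (kk n + s ^ 2) := by
  rw [cc, ← pow_mul, ← pow_add]
  congr 1
  ring

lemma hmap_form (hn : 2 ≤ n) {κ : Type} [Fintype κ] [DecidableEq κ] (L : V →ₗ[ℤ] (κ → ℤ))
    (hL : ∀ a b, ∑ s ∈ range (2 * n), cc n s * (WW n s a * WW n s b) + BB n a b -
      ∑ p ∈ PP n, a p.1 p.2 * b p.1 p.2 = ∑ i, L a i * L b i) (a b : V) :
    (hmap (n := n) L a) ⬝ᵥ (Matrix.diagonal sgn).mulVec (hmap (n := n) L b) = BB n a b := by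
  have h1 : (hmap (n := n) L a) ⬝ᵥ (Matrix.diagonal sgn).mulVec (hmap (n := n) L b) =
      ∑ t, hmap (n := n) L a t * (sgn t * hmap (n := n) L b t) := by
    simp only [dotProduct, Matrix.mulVec_diagonal]
  rw [h1, Fintype.sum_sum_type, Fintype.sum_sum_type]
  simp only [hmap, sgn, LinearMap.coe_mk, AddHom.coe_mk, Sum.elim_inl, Sum.elim_inr, one_mul]
  have h2 : ∑ p : {p // p ∈ PP n}, a p.1.1 p.1.2 * b p.1.1 p.1.2 =
      ∑ p ∈ PP n, a p.1 p.2 * b p.1 p.2 :=
    Finset.sum_coe_sort (PP n) (fun p => a p.1 p.2 * b p.1 p.2)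
  have h3 : ∑ s ∈ range (2 * n), cc n s * (WW n s a * WW n s b) =
      ∑ t : Fin (2 * n - 3), cc n ((t : ℕ) + 1) *
        (WW n ((t : ℕ) + 1) a * WW n ((t : ℕ) + 1) b) := by
    rw [Fin.sum_univ_eq_sum_range
      (fun t => cc n (t + 1) * (WW n (t + 1) a * WW n (t + 1) b)) (2 * n - 3)]
    have h4 : range (2 * n) = insert 0 ((range (2 * n - 3)).image (· + 1) ∪
        {2 * n - 2, 2 * n - 1}) := by
      ext s
      simp only [mem_range, mem_insert, mem_union, mem_image, mem_singleton]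
      constructor
      · intro h
        by_cases h0 : s = 0
        · left; exact h0
        · right
          by_cases h1 : s - 1 < 2 * n - 3
          · left
            exact ⟨s - 1, h1, by omega⟩
          · right
            omega
      · rintro (h | ⟨t, h, rfl⟩ | h | h) <;> omega
    rw [h4, Finset.sum_insert, Finset.sum_union, Finset.sum_image]
    · rw [WW_zero_of_le 0 (Or.inl rfl)]
      rw [Finset.sum_eq_zero (s := {2 * n - 2, 2 * n - 1}) (fun s hs => ?_)]
      · ring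
      · rw [WW_zero_of_le s (Or.inr (by
          simp only [mem_insert, mem_singleton] at hs
          omega))]
        ring
    · intro s _ t _ h
      simpa using h
    · rw [Finset.disjoint_left]
      intro s hs hs'
      simp only [mem_image, mem_range] at hs
      simp only [mem_insert, mem_singleton] at hs'
      obtain ⟨t, ht, rfl⟩ := hs
      omega
    · simp only [mem_union, mem_image, mem_range, mem_insert, mem_singleton]
      omega
  have h5 := hL a b
  rw [h3] at h5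
  rw [h2, ← h5]
  have h6 : ∑ t : Fin (2 * n - 3), (mm n : ℤ) ^ (kk n + ((t : ℕ) + 1) ^ 2) *
      WW n ((t : ℕ) + 1) a * (-1 * ((mm n : ℤ) ^ (kk n + ((t : ℕ) + 1) ^ 2) *
      WW n ((t : ℕ) + 1) b)) = - ∑ t : Fin (2 * n - 3), cc n ((t : ℕ) + 1) *
        (WW n ((t : ℕ) + 1) a * WW n ((t : ℕ) + 1) b) := by
    rw [← Finset.sum_neg_distrib]
    refine Finset.sum_congr rfl fun t _ => ?_
    rw [cc_sq]
    ring
  rw [h6]
  ring

lemma sgn_mul_self {κ : Type} (t : {p // p ∈ PP n} ⊕ (κ ⊕ Fin (2 * n - 3))) :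
    sgn t * sgn t = 1 := by
  rcases t with p | t | t <;> rfl

lemma wedge_self (x : ℕ → ℤ) : wedge x x = 0 := by
  funext p q
  simp only [wedge, Pi.zero_apply]
  ring

lemma wedge_swap (x y : ℕ → ℤ) : wedge x y = - wedge y x := by
  funext p q
  simp only [wedge, Pi.neg_apply]
  ring

lemma pair_diagonal {κ : Type} [Fintype κ] [DecidableEq κ] (d u v : κ → ℤ) :
    pair (Matrix.diagonal d) u v = u ⬝ᵥ (Matrix.diagonal d).mulVec v := by
  simp only [pair, dotProduct, Matrix.mulVec, Finset.mul_sum, mul_assoc]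

open Classical in
/-- the retraction -/
noncomputable def retr {κ : Type} (i j : Fin n) :
    ({p // p ∈ PP n} ⊕ (κ ⊕ Fin (2 * n - 3)) → ℤ) := fun t =>
  match t with
  | Sum.inl p => if (i : ℕ) = p.1.1 ∧ (j : ℕ) = p.1.2 then 1 else
      if (j : ℕ) = p.1.1 ∧ (i : ℕ) = p.1.2 then -1 else 0
  | Sum.inr _ => 0

lemma retr_sum {κ : Type} [Fintype κ] (i j : Fin n)
    (v : {p // p ∈ PP n} ⊕ (κ ⊕ Fin (2 * n - 3)) → ℤ) (a : V)
    (hv : ∀ p : {p // p ∈ PP n}, v (Sum.inl p) = a p.1.1 p.1.2) (ha : ∀ p q, a p q = - a q p) :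
    ∑ t, retr i j t * v t = a i j := by
  classical
  rw [Fintype.sum_sum_type]
  have h0 : ∑ t : κ ⊕ Fin (2 * n - 3), retr (n := n) i j (Sum.inr t) * v (Sum.inr t) = 0 :=
    Finset.sum_eq_zero fun t _ => by simp [retr]
  rw [h0, add_zero]
  simp only [hv, retr]
  have h1 : ∀ p : {p // p ∈ PP n}, (if (i : ℕ) = p.1.1 ∧ (j : ℕ) = p.1.2 then (1 : ℤ) else
      if (j : ℕ) = p.1.1 ∧ (i : ℕ) = p.1.2 then -1 else 0) * a p.1.1 p.1.2 =
      (fun p : ℕ × ℕ => (if p = ((i : ℕ), (j : ℕ)) then a i j else 0) +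
        (if p = ((j : ℕ), (i : ℕ)) then a i j else 0)) p.1 := by
    rintro ⟨⟨p, q⟩, hp⟩
    rw [mem_PP] at hp
    simp only at hp
    simp only [Prod.mk.injEq]
    by_cases h1 : (i : ℕ) = p ∧ (j : ℕ) = q
    · have h2 : ¬ (p = j ∧ q = i) := by omega
      rw [if_pos h1, if_pos ⟨h1.1.symm, h1.2.symm⟩, if_neg h2, one_mul, add_zero, h1.1, h1.2]
    · by_cases h2 : (j : ℕ) = p ∧ (i : ℕ) = q
      · have h3 : ¬ (p = i ∧ q = j) := by omega
        rw [if_neg h1, if_pos h2, if_neg h3, if_pos ⟨h2.1.symm, h2.2.symm⟩, zero_add, ha i j,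
          h2.1, h2.2]
        ring
      · have h3 : ¬ (p = i ∧ q = j) := by omega
        have h4 : ¬ (p = j ∧ q = i) := by omega
        rw [if_neg h1, if_neg h2, if_neg h3, if_neg h4]
        ring
  rw [Finset.sum_congr rfl (fun p _ => h1 p), Finset.sum_coe_sort (PP n)
    (fun p : ℕ × ℕ => (if p = ((i : ℕ), (j : ℕ)) then a i j else 0) +
        (if p = ((j : ℕ), (i : ℕ)) then a i j else 0)), Finset.sum_add_distrib,
    Finset.sum_ite_eq', Finset.sum_ite_eq']
  rcases lt_trichotomy (i : ℕ) j with h | h | h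
  · rw [if_pos (mem_PP.mpr ⟨h, j.2⟩), if_neg (by rw [mem_PP]; simp only; omega), add_zero]
  · have h5 : a i j = 0 := by
      have := ha i j
      rw [h] at this ⊢
      linarith
    rw [h5]
    simp
  · rw [if_neg (by rw [mem_PP]; simp only; omega), if_pos (mem_PP.mpr ⟨h, i.2⟩), zero_add]

/-- the explicit cohomology model -/
noncomputable def model (hn : 2 ≤ n) {κ : Type} [Fintype κ] [DecidableEq κ]
    (L : V →ₗ[ℤ] (κ → ℤ))
    (hL : ∀ a b, ∑ s ∈ range (2 * n), cc n s * (WW n s a * WW n s b) + BB n a b -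
      ∑ p ∈ PP n, a p.1 p.2 * b p.1 p.2 = ∑ i, L a i * L b i) :
    CohomologyModel n ({p // p ∈ PP n} ⊕ (κ ⊕ Fin (2 * n - 3))) where
  form := Matrix.diagonal sgn
  cup i j := hmap (n := n) L (wd i j)
  form_symm a b := by
    have := (Matrix.isSymm_diagonal (sgn (n := n) (κ := κ))).apply a b
    exact this.symm
  form_unimodular := by
    rw [Matrix.det_diagonal]
    refine IsUnit.of_mul_eq_one
      (∏ i : {p // p ∈ PP n} ⊕ (κ ⊕ Fin (2 * n - 3)), sgn i) ?_
    rw [← Finset.prod_mul_distrib]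
    exact Finset.prod_eq_one fun t _ => sgn_mul_self t
  isCup := by
    refine ⟨fun i => ?_, fun i j => ?_, fun i j k l => ?_⟩
    · have : wd i i = 0 := wedge_self _
      simp only [this, map_zero]
    · have : wd i j = - wd j i := wedge_swap _ _
      simp only [this, map_neg]
    · rw [pair_diagonal, pair_diagonal, hmap_form hn L hL, hmap_form hn L hL]
      exact BB_wedge _ _ _ _
  isSplit := by
    refine ⟨retr, fun i j k l => ?_⟩
    rw [retr_sum i j _ (wd k l) (fun p => rfl) (fun p q => by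
      simp only [wd, wedge]
      ring)]
    simp only [wd, wedge, un, coeff, Fin.ext_iff]
    simp only [mul_ite, mul_one, mul_zero, ← ite_and]
    congr 1 <;> simp only [and_comm]

lemma model_sigNeg (hn : 2 ≤ n) {κ : Type} [Fintype κ] [DecidableEq κ]
    (L : V →ₗ[ℤ] (κ → ℤ))
    (hL : ∀ a b, ∑ s ∈ range (2 * n), cc n s * (WW n s a * WW n s b) + BB n a b -
      ∑ p ∈ PP n, a p.1 p.2 * b p.1 p.2 = ∑ i, L a i * L b i) :
    sigNeg (model hn L hL).realForm = 2 * n - 3 := by
  set w : {p // p ∈ PP n} ⊕ (κ ⊕ Fin (2 * n - 3)) → ℝ := fun t => ((sgn t : ℤ) : ℝ) with hw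
  have h1 : (model hn L hL).realForm = QuadraticMap.weightedSumSquares ℝ w := by
    ext v
    rw [CohomologyModel.realForm_apply, QuadraticMap.weightedSumSquares_apply]
    have h2 : (model hn L hL).rmat = Matrix.diagonal w := by
      rw [CohomologyModel.rmat, model]
      simp only
      rw [Matrix.diagonal_map (by simp)]
    rw [h2]
    simp only [dotProduct, Matrix.mulVec_diagonal, smul_eq_mul]
    exact Finset.sum_congr rfl fun t _ => by ring
  rw [h1, QuadraticForm.sigNeg_of_equiv_weightedSumSquares (w := w)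
    (QuadraticMap.Equivalent.refl _)]
  have h3 : {t | w t < 0} = Set.range
      (fun t : Fin (2 * n - 3) => (Sum.inr (Sum.inr t) :
        {p // p ∈ PP n} ⊕ (κ ⊕ Fin (2 * n - 3)))) := by
    ext t
    simp only [hw, Set.mem_range]
    rcases t with p | t | t
    · simp [sgn]
    · simp [sgn]
    · simp [sgn]
  rw [h3, Set.ncard_eq_toFinset_card', Set.toFinset_range, Finset.card_image_of_injective]
  · simp
  · intro a b h
    simpa using h

theorem upper_bound (hn : 2 ≤ n) : 2 * (n : ℤ) - 4 ∈ values n := by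
  classical
  obtain ⟨κ, _, L, hL⟩ := sos_split hn
  refine ⟨_, inferInstance, inferInstance, model hn L hL, ?_⟩
  rw [CohomologyModel.euler_sub_signature, model_sigNeg]
  rw [Nat.cast_sub (by omega)]
  push_cast
  ring

end Pool.Agent.H20.PDM
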